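import Pool.Agent.Work.MP_84e666_co.Small

namespace Pool.Agent.Work.MP_84e666_co.Parked.FewBigParts

open Pool.Agent.Work.MP_84e666_co

/-- The complete table of `μ l r` when `l` has one or two parts greater than `1`. -/
theorem result (n : ℕ) (μ : n.Partition → n.Partition → ℤ) (hμ : IsMobius μ)
    (l r : n.Partition) (hlr : Refines l.parts r.parts) :
    (∀ k : ℕ, big l.parts = {k} →
      (∀ e : ℕ, big r.parts = {e} ∨ big r.parts = {2, e} →
        μ l r = (-1) ^ (l.parts.card - r.parts.card)) ∧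
      (3 ≤ (big r.parts).card ∨ ((big r.parts).card = 2 ∧ 2 ∉ r.parts) → μ l r = 0)) ∧
    (∀ j k : ℕ, j ≤ k → big l.parts = {j, k} →
      (∀ e : ℕ, big r.parts = {e} →
        μ l r = (-1) ^ (l.parts.card - r.parts.card) * fibH j k e) ∧
      (∀ c d : ℕ, c ≤ d → big r.parts = {c, d} →
        μ l r = (-1) ^ (l.parts.card - r.parts.card) *
          (fibG j k c d + if c = 2 then fibH j k d else 0 : ℕ)) ∧
      (∀ c d : ℕ, c ≤ d → big r.parts = {2, c, d} →
        μ l r = (-1) ^ (l.parts.card - r.parts.card) * fibG j k c d) ∧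
      (4 ≤ (big r.parts).card ∨ ((big r.parts).card = 3 ∧ 2 ∉ r.parts) → μ l r = 0)) := by
  have hz : ((big l.parts).card + 2 ≤ (big r.parts).card ∨
      ((big l.parts).card + 1 = (big r.parts).card ∧ 2 ∉ r.parts)) → μ l r = 0 := fun h => by
    rw [mu_top hμ l r hlr (Or.inl (by omega)), fall_eq_zero (fun x hx => l.parts_pos hx) h]
    simp
  refine ⟨fun k hk => ⟨fun e => mu_hook hμ l r hlr hk, fun h => hz ?_⟩, fun j k hjk hk => ?_⟩
  · rw [hk, Multiset.card_singleton]
    rcases h with h | h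
    · exact Or.inl h
    · exact Or.inr ⟨h.1.symm, h.2⟩
  · obtain ⟨h1, h2, h3⟩ := mu_two hμ l r hlr hjk hk
    refine ⟨h1, h2, h3, fun h => hz ?_⟩
    rw [hk, Multiset.card_pair]
    rcases h with h | h
    · exact Or.inl h
    · exact Or.inr ⟨h.1.symm, h.2⟩

end Pool.Agent.Work.MP_84e666_co.Parked.FewBigParts
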